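import Mathlib

set_option autoImplicit false
open scoped ENNReal Topology
open Filter

namespace Pool.Agent.Results.MP_ec348e_an.VagueNotMean

/-- `ℓ^p(G)`, the complex `L^p` space of the discrete group `G`. -/
def LL (G : Type) (p : ℝ≥0∞) : Type := lp (fun _ : G => ℂ) p

noncomputable instance llNorm (G : Type) (p : ℝ≥0∞) [Fact (1 ≤ p)] :
    NormedAddCommGroup (LL G p) :=
  lp.normedAddCommGroup

noncomputable instance llSpace (G : Type) (p : ℝ≥0∞) [Fact (1 ≤ p)] : NormedSpace ℂ (LL G p) :=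
  lp.instNormedSpace

/-- The value of an element of `ℓ^p(G)` at a point of `G`. -/
def LL.at {G : Type} {p : ℝ≥0∞} (f : LL G p) (s : G) : ℂ := f.1 s

/-- The averages `μ_[n] = (μ + μ² + ⋯ + μⁿ)/n` of the convolution powers of a finitely supported
complex measure on a discrete group (an element of the group algebra). -/
noncomputable def average {G : Type} [Group G] (μ : MonoidAlgebra ℂ G) (n : ℕ) :
    MonoidAlgebra ℂ G :=
  (n : ℂ)⁻¹ • ∑ k ∈ Finset.Icc 1 n, μ ^ k

/-- `μ` is vague-ergodic: the averages `μ_[n]` converge to some bounded measure `μc` (an absolutely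
summable function on the discrete group `G`) against every function vanishing at infinity. -/
def VagueErgodic {G : Type} [Group G] (μ : MonoidAlgebra ℂ G) : Prop :=
  ∃ μc : G → ℂ, Summable (fun x => ‖μc x‖) ∧
    ∀ φ : G → ℂ, Tendsto φ cofinite (𝓝 0) →
      Tendsto (fun n : ℕ => (average μ n).coeff.sum (fun x c => c * φ x)) atTop
        (𝓝 (∑' x, μc x * φ x))

/-- `T` is the convolution operator `λ_p(μ)`, `(μ * f)(x) = ∑_y μ(y) f(y⁻¹ x)`. -/
def IsConvolutionOp {G : Type} [Group G] {p : ℝ≥0∞} [Fact (1 ≤ p)] (μ : MonoidAlgebra ℂ G)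
    (T : LL G p →L[ℂ] LL G p) : Prop :=
  ∀ (f : LL G p) (x : G), (T f).at x = μ.coeff.sum (fun y c => c * f.at (y⁻¹ * x))

/-- `T` is mean ergodic: the averages of its powers converge strongly to a bounded operator. -/
def MeanErgodic {G : Type} {p : ℝ≥0∞} [Fact (1 ≤ p)] (T : LL G p →L[ℂ] LL G p) : Prop :=
  ∃ P : LL G p →L[ℂ] LL G p, ∀ f : LL G p,
    Tendsto (fun n : ℕ => (n : ℂ)⁻¹ • ∑ k ∈ Finset.Icc 1 n, (T ^ k) f) atTop (𝓝 (P f))

/-! ### The operators on `ℓ^p` -/

/-- unfolded form of `LL` -/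
abbrev EllP (G : Type) (p : ℝ≥0∞) : Type := lp (fun _ : G => ℂ) p

section trans
variable {G : Type} [Group G] {p : ℝ≥0∞} [Fact (1 ≤ p)]

/-- left translation `f ↦ f(g⁻¹ ·)` on `ℓ^p(G)`, `p < ∞` -/
noncomputable def ltr (hp : p ≠ ∞) (g : G) : EllP G p →L[ℂ] EllP G p :=
  have hp0 : 0 < p.toReal := ENNReal.toReal_pos
    (zero_lt_one.trans_le (Fact.out : (1 : ℝ≥0∞) ≤ p)).ne' hp
  LinearMap.mkContinuous
    { toFun := fun f => ⟨fun s => f (g⁻¹ * s), by
        refine (memℓp_gen_iff hp0).mpr ?_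
        exact (Equiv.summable_iff (Equiv.mulLeft g⁻¹)).mpr ((lp.memℓp f).summable hp0)⟩
      map_add' := fun f f' => rfl
      map_smul' := fun c f => rfl } 1 (by
        intro f
        rw [one_mul]
        refine lp.norm_le_of_tsum_le hp0 (norm_nonneg _) ?_
        rw [lp.norm_rpow_eq_tsum hp0]
        exact (Equiv.tsum_eq (Equiv.mulLeft g⁻¹) (fun s => ‖f s‖ ^ p.toReal)).le)

theorem ltr_apply (hp : p ≠ ∞) (g : G) (f : EllP G p) (s : G) :
    (ltr hp g f) s = f (g⁻¹ * s) := rfl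

/-- the left regular representation of the group -/
noncomputable def rep (hp : p ≠ ∞) : G →* (EllP G p →L[ℂ] EllP G p) where
  toFun := ltr hp
  map_one' := by
    refine ContinuousLinearMap.ext (fun f => lp.ext (funext fun s => ?_))
    rw [ltr_apply]
    simp
  map_mul' g h := by
    refine ContinuousLinearMap.ext (fun f => lp.ext (funext fun s => ?_))
    rw [ltr_apply]
    change f ((g * h)⁻¹ * s) = f (h⁻¹ * (g⁻¹ * s))
    rw [mul_inv_rev, mul_assoc]

/-- the left regular representation of the group algebra -/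
noncomputable def RR (hp : p ≠ ∞) : MonoidAlgebra ℂ G →ₐ[ℂ] (EllP G p →L[ℂ] EllP G p) :=
  MonoidAlgebra.lift ℂ _ G (rep hp)

theorem RR_apply (hp : p ≠ ∞) (m : MonoidAlgebra ℂ G) (f : EllP G p) (x : G) :
    (RR hp m f) x = m.coeff.sum (fun y c => c * f (y⁻¹ * x)) := by
  unfold RR
  rw [MonoidAlgebra.lift_apply]
  unfold Finsupp.sum
  rw [sum_apply, lp.coeFn_sum, Finset.sum_apply]
  refine Finset.sum_congr rfl (fun y _ => ?_)
  rfl

/-- pairing of a finitely supported measure with a function -/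
noncomputable def pair (φ : G → ℂ) : MonoidAlgebra ℂ G →+ ℂ where
  toFun m := m.coeff.sum (fun x c => c * φ x)
  map_zero' := by simp
  map_add' m m' := by
    rw [MonoidAlgebra.coeff_add]
    exact Finsupp.sum_add_index' (by simp) (by intro a b c; ring)

omit [Group G] in
theorem pair_apply (φ : G → ℂ) (m : MonoidAlgebra ℂ G) :
    pair φ m = m.coeff.sum (fun x c => c * φ x) := rfl

omit [Group G] in
theorem pair_single (φ : G → ℂ) (x : G) (c : ℂ) : pair φ (MonoidAlgebra.single x c) = c * φ x := by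
  rw [pair_apply, MonoidAlgebra.coeff_single]
  exact Finsupp.sum_single_index (by simp)

theorem pair_smul (φ : G → ℂ) (c : ℂ) (m : MonoidAlgebra ℂ G) :
    pair φ (c • m) = c * pair φ m := by
  rw [pair_apply, pair_apply, MonoidAlgebra.coeff_smul]
  by_cases hc : c = 0
  · subst hc; simp
  · rw [Finsupp.sum_smul_index' (by simp)]
    unfold Finsupp.sum
    rw [Finset.mul_sum]
    refine Finset.sum_congr rfl (fun y _ => ?_)
    simp [mul_assoc]

end trans

/-! ### The measure -/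

/-- the group `S₃ × ℤ` -/
abbrev GG : Type := Equiv.Perm (Fin 3) × Multiplicative ℤ

/-- a transposition -/
def σ : Equiv.Perm (Fin 3) := Equiv.swap 0 1

/-- a three-cycle -/
def ρ : Equiv.Perm (Fin 3) := Equiv.swap 0 1 * Equiv.swap 1 2

/-- the point `(π, k)` -/
def pt (π : Equiv.Perm (Fin 3)) (k : ℤ) : GG := (π, Multiplicative.ofAdd k)

/-- the point mass at `(π, k)` -/
noncomputable def dl (π : Equiv.Perm (Fin 3)) (k : ℤ) : MonoidAlgebra ℂ GG :=
  MonoidAlgebra.single (pt π k) 1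

theorem dl_mul (π π' : Equiv.Perm (Fin 3)) (k k' : ℤ) :
    dl π k * dl π' k' = dl (π * π') (k + k') := by
  unfold dl
  rw [MonoidAlgebra.single_mul_single, mul_one]
  rfl

/-- the nilpotent element -/
noncomputable def nu : MonoidAlgebra ℂ GG :=
  (dl 1 0 - dl σ 0) * dl ρ 0 * (dl 1 0 + dl σ 0)

theorem dl_one : dl 1 0 = 1 := rfl

theorem nu_sq : nu * nu = 0 := by
  have h : (dl 1 0 + dl σ 0) * (dl 1 0 - dl σ 0) = 0 := by
    rw [add_mul, mul_sub, mul_sub, dl_mul, dl_mul, dl_mul, dl_mul]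
    have e : σ * σ = 1 := by decide
    simp [e]
  unfold nu
  calc (dl 1 0 - dl σ 0) * dl ρ 0 * (dl 1 0 + dl σ 0) * ((dl 1 0 - dl σ 0) * dl ρ 0 * (dl 1 0 + dl σ 0))
      = (dl 1 0 - dl σ 0) * dl ρ 0 * ((dl 1 0 + dl σ 0) * (dl 1 0 - dl σ 0)) * dl ρ 0
          * (dl 1 0 + dl σ 0) := by noncomm_ring
    _ = 0 := by rw [h]; simp

theorem nu_expand (k : ℤ) : nu * dl 1 k
    = dl ρ k + dl (ρ * σ) k - dl (σ * ρ) k - dl (σ * ρ * σ) k := by
  unfold nu
  simp only [sub_mul, mul_add, add_mul, dl_mul]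
  simp
  abel

/-- translation by one in the second factor -/
noncomputable def a : MonoidAlgebra ℂ GG := dl 1 1

theorem a_pow (n : ℕ) : a ^ n = dl 1 n := by
  induction n with
  | zero => simp [dl_one]
  | succ n ih =>
    rw [pow_succ, ih, a, dl_mul]
    simp

theorem a_comm_dl (π : Equiv.Perm (Fin 3)) (k : ℤ) : Commute a (dl π k) := by
  unfold Commute SemiconjBy a
  rw [dl_mul, dl_mul, one_mul, mul_one, add_comm]

theorem a_comm : Commute a nu := by
  unfold nu
  exact (((a_comm_dl 1 0).sub_right (a_comm_dl σ 0)).mul_right (a_comm_dl ρ 0)).mul_right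
    ((a_comm_dl 1 0).add_right (a_comm_dl σ 0))

/-- the measure -/
noncomputable def mu : MonoidAlgebra ℂ GG := a + nu * (a - 1)

theorem aux_pow {R : Type} [Ring R] (a N : R) (h : Commute a N) (hN : N * N = 0) (n : ℕ) :
    (a + N * (a - 1)) ^ (n + 1) = a ^ (n + 1) + (n + 1) • (N * (a ^ (n + 1) - a ^ n)) := by
  have hk : ∀ k : ℕ, a ^ k * N = N * a ^ k := fun k => h.pow_left k
  induction n with
  | zero => simp
  | succ n ih =>
    rw [pow_succ, ih]
    have e1 : (a ^ (n + 1) + (n + 1) • (N * (a ^ (n + 1) - a ^ n))) * (a + N * (a - 1))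
        = a ^ (n + 1) * a + (a ^ (n + 1) * N) * (a - 1)
          + (n + 1) • (N * (a ^ (n + 1) * a - a ^ n * a))
          + (n + 1) • (N * (((a ^ (n + 1)) * N - a ^ n * N) * (a - 1))) := by
      simp only [add_mul, mul_add, smul_mul_assoc, mul_assoc, sub_mul]
      abel
    have e3 : N * ((N * a ^ (n + 1) - N * a ^ n) * (a - 1)) = 0 := by
      rw [← mul_sub, mul_assoc, ← mul_assoc N N, hN, zero_mul]
    rw [e1, hk, hk, e3, smul_zero, add_zero, ← pow_succ, ← pow_succ]
    have e2 : N * (a ^ (n + 1) * (a - 1)) = N * (a ^ (n + 1 + 1) - a ^ (n + 1)) := by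
      rw [mul_sub (a ^ (n + 1)), mul_one, ← pow_succ]
    rw [mul_assoc N, e2, succ_nsmul _ (n + 1)]
    abel

theorem mu_pow (n : ℕ) : mu ^ (n + 1)
    = a ^ (n + 1) + (n + 1) • (nu * a ^ (n + 1) - nu * a ^ n) := by
  unfold mu
  rw [aux_pow a nu a_comm nu_sq n, mul_sub]

/-- sum of the first `n` powers -/
theorem mu_sum (n : ℕ) : ∑ k ∈ Finset.Icc 1 n, mu ^ k
    = ∑ k ∈ Finset.Icc 1 n, a ^ k + n • (nu * a ^ n) - ∑ k ∈ Finset.range n, nu * a ^ k := by
  induction n with
  | zero => simp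
  | succ n ih =>
    rw [Finset.sum_Icc_succ_top (by omega), ih, mu_pow, Finset.sum_Icc_succ_top (by omega),
      Finset.sum_range_succ, succ_nsmul, succ_nsmul, smul_sub]
    abel

/-- the pairing of `nu * a^k` with a function -/
noncomputable def psi (φ : GG → ℂ) (k : ℤ) : ℂ :=
  φ (pt ρ k) + φ (pt (ρ * σ) k) - φ (pt (σ * ρ) k) - φ (pt (σ * ρ * σ) k)

theorem pair_dl (φ : GG → ℂ) (π : Equiv.Perm (Fin 3)) (k : ℤ) :
    pair φ (dl π k) = φ (pt π k) := by
  unfold dl
  rw [pair_single, one_mul]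

theorem pair_nu (φ : GG → ℂ) (k : ℕ) : pair φ (nu * a ^ k) = psi φ k := by
  rw [a_pow, nu_expand, map_sub, map_sub, map_add, pair_dl, pair_dl, pair_dl, pair_dl]
  rfl

theorem pair_average (φ : GG → ℂ) (n : ℕ) (hn : n ≠ 0) : pair φ (average mu n)
    = (n : ℂ)⁻¹ * ∑ k ∈ Finset.Icc 1 n, φ (pt 1 k) + psi φ n
      - (n : ℂ)⁻¹ * ∑ k ∈ Finset.range n, psi φ k := by
  unfold average
  rw [pair_smul, mu_sum, map_sub, map_add, map_nsmul, map_sum, map_sum]
  simp only [pair_nu]
  simp only [a_pow, pair_dl]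
  have : (n : ℂ) ≠ 0 := by exact_mod_cast hn
  rw [nsmul_eq_mul]
  field_simp

theorem tendsto_pt {φ : GG → ℂ} (hφ : Tendsto φ cofinite (𝓝 0)) (π : Equiv.Perm (Fin 3)) :
    Tendsto (fun n : ℕ => φ (pt π n)) atTop (𝓝 0) := by
  have hinj : Function.Injective (fun n : ℕ => pt π (n : ℤ)) := by
    intro m n h
    have h2 := congrArg Prod.snd h
    have h3 : ((m : ℤ)) = n := Multiplicative.ofAdd.injective h2
    exact_mod_cast h3
  have h := hφ.comp hinj.tendsto_cofinite
  rw [Nat.cofinite_eq_atTop] at h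
  exact h

theorem tendsto_psi {φ : GG → ℂ} (hφ : Tendsto φ cofinite (𝓝 0)) :
    Tendsto (fun n : ℕ => psi φ n) atTop (𝓝 0) := by
  have h := (((tendsto_pt hφ ρ).add (tendsto_pt hφ (ρ * σ))).sub (tendsto_pt hφ (σ * ρ))).sub
    (tendsto_pt hφ (σ * ρ * σ))
  simpa [psi] using h

theorem vague_zero (φ : GG → ℂ) (hφ : Tendsto φ cofinite (𝓝 0)) :
    Tendsto (fun n : ℕ => pair φ (average mu n)) atTop (𝓝 0) := by
  have h1 : Tendsto (fun n : ℕ => (n : ℂ)⁻¹ * ∑ k ∈ Finset.Icc 1 n, φ (pt 1 k)) atTop (𝓝 0) := by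
    have h := ((tendsto_pt hφ 1).comp (tendsto_add_atTop_nat 1)).cesaro_smul
    refine h.congr (fun n => ?_)
    rw [Complex.real_smul]
    congr 1
    · push_cast; rfl
    · induction n with
      | zero => simp
      | succ n ih => rw [Finset.sum_range_succ, ih, Finset.sum_Icc_succ_top (by omega)]; simp
  have h2 : Tendsto (fun n : ℕ => (n : ℂ)⁻¹ * ∑ k ∈ Finset.range n, psi φ k) atTop (𝓝 0) := by
    refine (tendsto_psi hφ).cesaro_smul.congr (fun n => ?_)
    rw [Complex.real_smul]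
    congr 1
    push_cast; rfl
  have h3 := (h1.add (tendsto_psi hφ)).sub h2
  rw [add_zero, sub_zero] at h3
  refine h3.congr' ?_
  filter_upwards [eventually_ne_atTop 0] with n hn
  rw [← pair_average φ n hn]

theorem vague : VagueErgodic mu := by
  refine ⟨fun _ => 0, by simp, fun φ hφ => ?_⟩
  simp only [zero_mul, tsum_zero]
  exact vague_zero φ hφ

/-- the coefficient of the average at a moving point is one -/
theorem average_coeff (n : ℕ) (hn : n ≠ 0) :
    pair (Pi.single (pt ρ n) 1) (average mu n) = 1 := by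
  classical
  rw [pair_average _ n hn]
  have hne : ∀ (π : Equiv.Perm (Fin 3)) (k : ℤ), π ≠ ρ →
      (Pi.single (pt ρ n) 1 : GG → ℂ) (pt π k) = 0 := by
    intro π k h
    rw [Pi.single_eq_of_ne]
    intro h'
    exact h (congrArg Prod.fst h')
  have h1 : (1 : Equiv.Perm (Fin 3)) ≠ ρ := by decide
  have h2 : ρ * σ ≠ ρ := by decide
  have h3 : σ * ρ ≠ ρ := by decide
  have h4 : σ * ρ * σ ≠ ρ := by decide
  have e1 : ∑ k ∈ Finset.Icc 1 n, (Pi.single (pt ρ n) 1 : GG → ℂ) (pt 1 k) = 0 :=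
    Finset.sum_eq_zero (fun k _ => hne _ _ h1)
  have e2 : psi (Pi.single (pt ρ n) 1) n = 1 := by
    unfold psi
    rw [hne _ _ h2, hne _ _ h3, hne _ _ h4, Pi.single_eq_same]
    ring
  have e3 : ∑ k ∈ Finset.range n, psi (Pi.single (pt ρ n) 1) k = 0 := by
    refine Finset.sum_eq_zero (fun k hk => ?_)
    unfold psi
    rw [hne _ _ h2, hne _ _ h3, hne _ _ h4, Pi.single_eq_of_ne]
    · ring
    · intro h
      have h5 := congrArg Prod.snd h
      have h6 : ((k : ℤ)) = n := Multiplicative.ofAdd.injective h5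
      have h7 : k = n := by exact_mod_cast h6
      rw [h7] at hk
      exact absurd hk Finset.notMem_range_self
  rw [e1, e2, e3]
  ring

section fin
variable {p : ℝ≥0∞} [Fact (1 ≤ p)]

theorem RR_delta (hp : p ≠ ∞) (m : MonoidAlgebra ℂ GG) (x : GG) :
    (RR hp m (lp.single p (1 : GG) (1 : ℂ))) x = pair (Pi.single x 1) m := by
  classical
  rw [RR_apply, pair_apply]
  refine Finsupp.sum_congr (fun y _ => ?_)
  congr 1
  rw [lp.single_apply]
  by_cases h : y = x
  · subst h
    rw [inv_mul_cancel, Pi.single_eq_same, Pi.single_eq_same]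
  · rw [Pi.single_eq_of_ne h, Pi.single_eq_of_ne]
    intro h'
    exact h (inv_mul_eq_one.mp h')

theorem not_mean (hp : p ≠ ∞) : ¬ ∃ P : EllP GG p →L[ℂ] EllP GG p, ∀ f : EllP GG p,
    Tendsto (fun n : ℕ => (n : ℂ)⁻¹ • ∑ k ∈ Finset.Icc 1 n, ((RR hp mu) ^ k) f) atTop
      (𝓝 (P f)) := by
  rintro ⟨P, hP⟩
  have h := hP (lp.single p (1 : GG) (1 : ℂ))
  set f : EllP GG p := lp.single p (1 : GG) (1 : ℂ) with hf
  have hav : ∀ n : ℕ, (n : ℂ)⁻¹ • ∑ k ∈ Finset.Icc 1 n, ((RR hp mu) ^ k) f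
      = RR hp (average mu n) f := by
    intro n
    unfold average
    rw [map_smul, map_sum, smul_apply, sum_apply]
    simp only [map_pow]
  simp only [hav] at h
  -- the limit vanishes
  have hzero : P f = 0 := by
    refine lp.ext (funext fun x => ?_)
    have h1 : Tendsto (fun n : ℕ => (RR hp (average mu n) f) x) atTop (𝓝 ((P f) x)) :=
      ((lp.evalCLM ℂ (fun _ : GG => ℂ) p x).continuous.tendsto _).comp h
    have h2 : Tendsto (fun n : ℕ => (RR hp (average mu n) f) x) atTop (𝓝 0) := by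
      simp only [hf, RR_delta]
      refine vague_zero _ ?_
      refine (tendsto_congr' ?_).mpr tendsto_const_nhds
      filter_upwards [(Set.finite_singleton x).compl_mem_cofinite] with y hy
      exact Pi.single_eq_of_ne hy _
    rw [tendsto_nhds_unique h1 h2]
    rfl
  rw [hzero] at h
  have h3 := h.norm
  rw [norm_zero] at h3
  have h4 : ∀ᶠ n : ℕ in atTop, (1 : ℝ) ≤ ‖RR hp (average mu n) f‖ := by
    filter_upwards [eventually_ne_atTop 0] with n hn
    have h5 := lp.norm_apply_le_norm (zero_lt_one.trans_le (Fact.out : (1 : ℝ≥0∞) ≤ p)).ne'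
      (RR hp (average mu n) f) (pt ρ n)
    rw [hf, RR_delta, average_coeff n hn, norm_one] at h5
    exact h5
  have h6 := ge_of_tendsto h3 h4
  linarith

end fin

/-- **A vague-ergodic measure whose convolution operators are not mean ergodic.** There is a discrete
group `G` and a finitely supported complex measure `μ` on `G` which is vague-ergodic, such that
`λ_p(μ)` is not mean ergodic for any `1 < p < ∞`. -/
theorem result : ∃ (G : Type) (_ : Group G) (μ : MonoidAlgebra ℂ G), VagueErgodic μ ∧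
    ∀ (p : ℝ≥0∞) [Fact (1 ≤ p)], 1 < p → p < ∞ →
      ∃ T : LL G p →L[ℂ] LL G p, IsConvolutionOp μ T ∧ ¬ MeanErgodic T := by
  refine ⟨GG, inferInstance, mu, vague, ?_⟩
  intro p _ _ h2
  exact ⟨RR h2.ne mu, fun f x => RR_apply h2.ne mu f x, not_mean h2.ne⟩

end Pool.Agent.Results.MP_ec348e_an.VagueNotMean
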